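import Mathlib

open Finset

namespace Pool.Agent.V11181.NF

/-- a random vector `(X_i : i in Fin n)` on a finite probability space -/
structure RandomVector (n : ℕ) where
  /-- sample space -/
  Ω : Type
  /-- it is finite -/
  fin : Fintype Ω
  /-- probabilities -/
  p : Ω → ℝ
  /-- nonnegative -/
  nonneg : ∀ ω, 0 ≤ p ω
  /-- total mass one -/
  sum_one : ∑ ω, p ω = 1
  /-- the coordinates -/
  X : Fin n → Ω → ℕ

attribute [instance] RandomVector.fin

variable {n : ℕ} (R : RandomVector n)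

open Classical in
/-- the probability that `X_A` takes the value it takes at `ω` -/
noncomputable def prob (A : Finset (Fin n)) (ω : R.Ω) : ℝ :=
  ∑ ω' ∈ univ.filter (fun ω' => ∀ i ∈ A, R.X i ω' = R.X i ω), R.p ω'

/-- joint Shannon entropy `H(X_A) = E[-log P(X_A = X_A(ω))]` -/
noncomputable def entropy (A : Finset (Fin n)) : ℝ :=
  ∑ ω, R.p ω * -Real.log (prob R A ω)

theorem le_prob (A : Finset (Fin n)) (ω : R.Ω) : R.p ω ≤ prob R A ω := by
  classical
  unfold prob
  exact Finset.single_le_sum (f := R.p) (fun i _ => R.nonneg i) (by simp)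

theorem prob_pos {A : Finset (Fin n)} {ω : R.Ω} (h : 0 < R.p ω) : 0 < prob R A ω :=
  lt_of_lt_of_le h (le_prob R A ω)

theorem prob_nonneg (A : Finset (Fin n)) (ω : R.Ω) : 0 ≤ prob R A ω :=
  le_trans (R.nonneg ω) (le_prob R A ω)

theorem prob_congr {A : Finset (Fin n)} {ω ω' : R.Ω} (h : ∀ i ∈ A, R.X i ω = R.X i ω') :
    prob R A ω = prob R A ω' := by
  classical
  unfold prob
  congr 1
  ext a
  simp only [mem_filter, mem_univ, true_and]
  constructor
  · intro h1 i hi
    rw [h1 i hi, h i hi]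
  · intro h1 i hi
    rw [h1 i hi, h i hi]

theorem prob_anti {A B : Finset (Fin n)} (h : A ⊆ B) (ω : R.Ω) :
    prob R B ω ≤ prob R A ω := by
  classical
  unfold prob
  apply Finset.sum_le_sum_of_subset_of_nonneg
  · intro a ha
    rw [mem_filter] at ha ⊢
    exact ⟨ha.1, fun i hi => ha.2 i (h hi)⟩
  · intro i _ _
    exact R.nonneg i

/-- functional dependence -/
theorem functional {A B : Finset (Fin n)} (h : A ⊆ B) (hH : entropy R B = entropy R A) :
    (∀ ω, 0 < R.p ω → prob R B ω = prob R A ω) ∧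
    (∀ ω ω', 0 < R.p ω → 0 < R.p ω' → (∀ i ∈ A, R.X i ω = R.X i ω') →
      ∀ i ∈ B, R.X i ω = R.X i ω') := by
  classical
  have h1 : ∑ ω, R.p ω * (Real.log (prob R A ω) - Real.log (prob R B ω)) = 0 := by
    have h2 : ∑ ω, R.p ω * (Real.log (prob R A ω) - Real.log (prob R B ω))
        = entropy R B - entropy R A := by
      unfold entropy
      rw [← Finset.sum_sub_distrib]
      apply Finset.sum_congr rfl
      intro ω _
      ring
    rw [h2, hH, sub_self]
  have h3 : ∀ ω ∈ (univ : Finset R.Ω),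
      0 ≤ R.p ω * (Real.log (prob R A ω) - Real.log (prob R B ω)) := by
    intro ω _
    rcases (R.nonneg ω).eq_or_lt with h0 | h0
    · rw [← h0, zero_mul]
    · apply mul_nonneg h0.le
      rw [sub_nonneg]
      exact Real.log_le_log (prob_pos R h0) (prob_anti R h ω)
  have h4 := (Finset.sum_eq_zero_iff_of_nonneg h3).mp h1
  have h5 : ∀ ω, 0 < R.p ω → prob R B ω = prob R A ω := by
    intro ω hω
    have h6 := h4 ω (mem_univ _)
    rcases mul_eq_zero.mp h6 with h7 | h7
    · exact absurd h7 hω.ne'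
    · have h8 : Real.log (prob R B ω) = Real.log (prob R A ω) := by linarith
      exact Real.log_injOn_pos (prob_pos R hω) (prob_pos R hω) h8
  refine ⟨h5, ?_⟩
  intro ω ω' hω hω' hag
  by_contra hne
  have h6 := h5 ω hω
  have h7 : prob R B ω + R.p ω' ≤ prob R A ω := by
    unfold prob
    rw [add_comm, ← Finset.sum_insert]
    · apply Finset.sum_le_sum_of_subset_of_nonneg
      · intro a ha
        rw [mem_insert, mem_filter] at ha
        rw [mem_filter]
        rcases ha with rfl | ha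
        · exact ⟨mem_univ _, fun i hi => (hag i hi).symm⟩
        · exact ⟨ha.1, fun i hi => ha.2 i (h hi)⟩
      · intro i _ _
        exact R.nonneg i
    · rw [mem_filter]
      rintro ⟨_, h8⟩
      exact hne (fun i hi => (h8 i hi).symm)
  linarith

/-- independence -/
theorem independent {A B : Finset (Fin n)}
    (hH : entropy R (A ∪ B) = entropy R A + entropy R B) :
    (∀ ω, 0 < R.p ω → prob R (A ∪ B) ω = prob R A ω * prob R B ω) ∧
    (∀ ω₁ ω₂, 0 < R.p ω₁ → 0 < R.p ω₂ → ∃ ω, 0 < R.p ω ∧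
      (∀ i ∈ A, R.X i ω = R.X i ω₁) ∧ (∀ i ∈ B, R.X i ω = R.X i ω₂)) := by
  classical
  set r : R.Ω → ℝ := fun ω => prob R A ω * prob R B ω / prob R (A ∪ B) ω with hr
  let cls : R.Ω → R.Ω → Finset R.Ω := fun ω₁ ω₂ =>
    univ.filter (fun ω => (∀ i ∈ A, R.X i ω = R.X i ω₁) ∧ (∀ i ∈ B, R.X i ω = R.X i ω₂))
  let q : R.Ω → R.Ω → ℝ := fun ω₁ ω₂ => ∑ ω ∈ cls ω₁ ω₂, R.p ω / prob R (A ∪ B) ω
  have hcls : ∀ ω₁ ω₂ ω, ω ∈ cls ω₁ ω₂ →
      prob R (A ∪ B) ω = ∑ ω' ∈ cls ω₁ ω₂, R.p ω' := by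
    intro ω₁ ω₂ ω hω
    unfold prob
    congr 1
    ext a
    simp only [cls, mem_filter, mem_univ, true_and, mem_union] at hω ⊢
    constructor
    · intro h1
      exact ⟨fun i hi => by rw [h1 i (Or.inl hi), hω.1 i hi],
        fun i hi => by rw [h1 i (Or.inr hi), hω.2 i hi]⟩
    · rintro ⟨h1, h2⟩ i (hi | hi)
      · rw [h1 i hi, hω.1 i hi]
      · rw [h2 i hi, hω.2 i hi]
  have hq1 : ∀ ω₁ ω₂, q ω₁ ω₂ ≤ 1 := by
    intro ω₁ ω₂
    have h1 : q ω₁ ω₂ = (∑ ω ∈ cls ω₁ ω₂, R.p ω) / (∑ ω ∈ cls ω₁ ω₂, R.p ω) := by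
      simp only [q]
      rw [Finset.sum_div]
      apply Finset.sum_congr rfl
      intro ω hω
      rw [hcls ω₁ ω₂ ω hω]
    rw [h1]
    exact div_self_le_one _
  have hq0 : ∀ ω₁ ω₂, (¬ ∃ ω, 0 < R.p ω ∧
      (∀ i ∈ A, R.X i ω = R.X i ω₁) ∧ (∀ i ∈ B, R.X i ω = R.X i ω₂)) → q ω₁ ω₂ = 0 := by
    intro ω₁ ω₂ hno
    apply Finset.sum_eq_zero
    intro ω hω
    have h1 : R.p ω = 0 := by
      by_contra h2
      apply hno
      have h3 := (mem_filter.mp hω).2
      exact ⟨ω, lt_of_le_of_ne (R.nonneg ω) (Ne.symm h2), h3⟩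
    rw [h1, zero_div]
  -- the sum of `p r`
  have hsum : ∑ ω, R.p ω * r ω = ∑ ω₁, ∑ ω₂, R.p ω₁ * R.p ω₂ * q ω₁ ω₂ := by
    have h1 : ∀ ω, R.p ω * r ω = ∑ ω₁, ∑ ω₂,
        if ((∀ i ∈ A, R.X i ω = R.X i ω₁) ∧ (∀ i ∈ B, R.X i ω = R.X i ω₂)) then
          R.p ω₁ * R.p ω₂ * (R.p ω / prob R (A ∪ B) ω) else 0 := by
      intro ω
      have h2 : prob R A ω = ∑ ω₁, if (∀ i ∈ A, R.X i ω = R.X i ω₁) then R.p ω₁ else 0 := by
        unfold prob
        rw [Finset.sum_filter]
        apply Finset.sum_congr rfl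
        intro ω₁ _
        congr 1
        apply propext
        exact ⟨fun h i hi => (h i hi).symm, fun h i hi => (h i hi).symm⟩
      have h3 : prob R B ω = ∑ ω₁, if (∀ i ∈ B, R.X i ω = R.X i ω₁) then R.p ω₁ else 0 := by
        unfold prob
        rw [Finset.sum_filter]
        apply Finset.sum_congr rfl
        intro ω₁ _
        congr 1
        apply propext
        exact ⟨fun h i hi => (h i hi).symm, fun h i hi => (h i hi).symm⟩
      have h4 : R.p ω * r ω = (prob R A ω * prob R B ω) * (R.p ω / prob R (A ∪ B) ω) := by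
        rw [hr]
        ring
      rw [h4, h2, h3, Finset.sum_mul_sum, Finset.sum_mul]
      apply Finset.sum_congr rfl
      intro ω₁ _
      rw [Finset.sum_mul]
      apply Finset.sum_congr rfl
      intro ω₂ _
      by_cases ha : ∀ i ∈ A, R.X i ω = R.X i ω₁
      · by_cases hb : ∀ i ∈ B, R.X i ω = R.X i ω₂
        · rw [if_pos ha, if_pos hb, if_pos ⟨ha, hb⟩]
        · have hab : ¬ ((∀ i ∈ A, R.X i ω = R.X i ω₁) ∧ (∀ i ∈ B, R.X i ω = R.X i ω₂)) :=
            fun h => hb h.2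
          rw [if_pos ha, if_neg hb, if_neg hab]
          ring
      · have hab : ¬ ((∀ i ∈ A, R.X i ω = R.X i ω₁) ∧ (∀ i ∈ B, R.X i ω = R.X i ω₂)) :=
          fun h => ha h.1
        rw [if_neg ha, if_neg hab]
        ring
    rw [Finset.sum_congr rfl (fun ω _ => h1 ω), Finset.sum_comm]
    apply Finset.sum_congr rfl
    intro ω₁ _
    rw [Finset.sum_comm]
    apply Finset.sum_congr rfl
    intro ω₂ _
    simp only [q, cls]
    rw [Finset.mul_sum, Finset.sum_filter]
  have htot : ∑ ω₁, ∑ ω₂, R.p ω₁ * R.p ω₂ = 1 := by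
    rw [← Finset.sum_mul_sum, R.sum_one, mul_one]
  have hle : ∑ ω, R.p ω * r ω ≤ 1 := by
    rw [hsum, ← htot]
    apply Finset.sum_le_sum
    intro ω₁ _
    apply Finset.sum_le_sum
    intro ω₂ _
    have h1 := mul_nonneg (R.nonneg ω₁) (R.nonneg ω₂)
    nlinarith [hq1 ω₁ ω₂]
  have hlog : ∑ ω, R.p ω * Real.log (r ω) = 0 := by
    have h2 : ∑ ω, R.p ω * Real.log (r ω)
        = entropy R (A ∪ B) - entropy R A - entropy R B := by
      unfold entropy
      rw [← Finset.sum_sub_distrib, ← Finset.sum_sub_distrib]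
      apply Finset.sum_congr rfl
      intro ω _
      rcases (R.nonneg ω).eq_or_lt with h0 | h0
      · rw [← h0]; ring
      · rw [hr]
        simp only
        rw [Real.log_div (mul_ne_zero (prob_pos R h0).ne' (prob_pos R h0).ne')
          (prob_pos R h0).ne', Real.log_mul (prob_pos R h0).ne' (prob_pos R h0).ne']
        ring
    rw [h2, hH]
    ring
  have hterm : ∀ ω, 0 < R.p ω → 0 < r ω := by
    intro ω h0
    rw [hr]
    exact div_pos (mul_pos (prob_pos R h0) (prob_pos R h0)) (prob_pos R h0)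
  have hnn : ∀ ω ∈ (univ : Finset R.Ω), 0 ≤ R.p ω * (r ω - 1 - Real.log (r ω)) := by
    intro ω _
    rcases (R.nonneg ω).eq_or_lt with h0 | h0
    · rw [← h0, zero_mul]
    · apply mul_nonneg h0.le
      have := Real.log_le_sub_one_of_pos (hterm ω h0)
      linarith
  have hexp : ∑ ω, R.p ω * (r ω - 1 - Real.log (r ω)) = ∑ ω, R.p ω * r ω - 1 := by
    have h1 : ∀ ω, R.p ω * (r ω - 1 - Real.log (r ω))
        = R.p ω * r ω - R.p ω - R.p ω * Real.log (r ω) := by
      intro ω; ring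
    rw [Finset.sum_congr rfl (fun ω _ => h1 ω), Finset.sum_sub_distrib,
      Finset.sum_sub_distrib, hlog, R.sum_one]
    ring
  have hge := Finset.sum_nonneg hnn
  have heq : ∑ ω, R.p ω * r ω = 1 := by linarith
  have hz : ∑ ω, R.p ω * (r ω - 1 - Real.log (r ω)) = 0 := by rw [hexp, heq, sub_self]
  have hz' := (Finset.sum_eq_zero_iff_of_nonneg hnn).mp hz
  refine ⟨?_, ?_⟩
  · intro ω hω
    have h1 := hz' ω (mem_univ _)
    rcases mul_eq_zero.mp h1 with h2 | h2
    · exact absurd h2 hω.ne'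
    · have h3 : r ω = 1 := by
        by_contra h4
        have := Real.log_lt_sub_one_of_pos (hterm ω hω) h4
        linarith
      rw [hr] at h3
      simp only at h3
      rw [div_eq_one_iff_eq (prob_pos R hω).ne'] at h3
      exact h3.symm
  · intro ω₁ ω₂ h1 h2
    by_contra hno
    have hq := hq0 ω₁ ω₂ hno
    have h3 : ∑ a, ∑ b, R.p a * R.p b * (1 - q a b) = 0 := by
      have h4 : ∀ a b, R.p a * R.p b * (1 - q a b) = R.p a * R.p b - R.p a * R.p b * q a b := by
        intro a b; ring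
      simp only [h4]
      simp only [Finset.sum_sub_distrib]
      rw [htot, ← hsum, heq, sub_self]
    have h5 : ∀ a ∈ (univ : Finset R.Ω), 0 ≤ ∑ b, R.p a * R.p b * (1 - q a b) := by
      intro a _
      apply Finset.sum_nonneg
      intro b _
      exact mul_nonneg (mul_nonneg (R.nonneg a) (R.nonneg b)) (by linarith [hq1 a b])
    have h6 := (Finset.sum_eq_zero_iff_of_nonneg h5).mp h3 ω₁ (mem_univ _)
    have h7 := (Finset.sum_eq_zero_iff_of_nonneg (by
      intro b _
      exact mul_nonneg (mul_nonneg (R.nonneg ω₁) (R.nonneg b))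
        (by linarith [hq1 ω₁ b]))).mp h6 ω₂ (mem_univ _)
    rw [hq, sub_zero, mul_one] at h7
    exact absurd h7 (mul_pos h1 h2).ne'

end Pool.Agent.V11181.NF
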