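import Mathlib

open Finset

namespace Pool.Agent.V11181.NF

/-- a finite set with an associative commutative cancellative operation and identity; even order
gives an element of order two -/
theorem involution {X : Type} [Fintype X] (m : X → X → X) (e : X)
    (he1 : ∀ x, m x e = x) (he2 : ∀ x, m e x = x)
    (hassoc : ∀ x y z, m (m x y) z = m x (m y z))
    (hinj : ∀ y, Function.Injective (fun x => m x y))
    (heven : 2 ∣ Fintype.card X) : ∃ s, s ≠ e ∧ m s s = e := by
  classical
  have hsurj : ∀ y, ∃ x, m x y = e := by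
    intro y
    exact (Finite.injective_iff_surjective.mp (hinj y)) e
  choose iv hiv using hsurj
  letI : Mul X := ⟨m⟩
  letI : One X := ⟨e⟩
  letI : Inv X := ⟨iv⟩
  letI : Group X := Group.ofLeftAxioms hassoc he2 hiv
  haveI : Fact (Nat.Prime 2) := ⟨Nat.prime_two⟩
  obtain ⟨s, hs⟩ := exists_prime_orderOf_dvd_card (G := X) 2 heven
  refine ⟨s, ?_, ?_⟩
  · intro h
    have h1 : s = 1 := h
    rw [h1, orderOf_one] at hs
    omega
  · have h1 := pow_orderOf_eq_one s
    rw [hs, pow_two] at h1
    exact h1

/-- the non-Fano configuration of quasigroups cannot be injective on `(A, B, C)` when the order is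
even -/
theorem nonfano {X Y Z P Q R W : Type} [Fintype X]
    (A : X → Y → P) (B : X → Z → Q) (C : Y → Z → R) (D : P → Z → W) (E : Q → Y → W)
    (F : R → X → W) (x0 : X) (y0 : Y) (z0 : Z)
    (h1 : ∀ x y z, D (A x y) z = F (C y z) x) (h2 : ∀ x y z, D (A x y) z = E (B x z) y)
    (hA1 : Function.Bijective (fun x => A x y0)) (hA2 : Function.Bijective (fun y => A x0 y))
    (hD1 : Function.Bijective (fun p => D p z0))
    (hD2 : Function.Bijective (fun z => D (A x0 y0) z))
    (hC1 : Function.Bijective (fun y => C y z0))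
    (hB1 : Function.Bijective (fun x => B x z0))
    (hAi : ∀ y, Function.Injective (fun x => A x y))
    (heven : 2 ∣ Fintype.card X) :
    ∃ (x : X) (y : Y) (z : Z), x ≠ x0 ∧ A x y = A x0 y0 ∧ B x z = B x0 z0 ∧
      C y z = C y0 z0 := by
  classical
  -- relabellings
  let a : X ≃ P := Equiv.ofBijective _ hA1
  have ha : ∀ x, a x = A x y0 := fun x => rfl
  let b0 : Y ≃ P := Equiv.ofBijective _ hA2
  have hb0 : ∀ y, b0 y = A x0 y := fun y => rfl
  let b : X ≃ Y := a.trans b0.symm
  have hb : ∀ x, A x0 (b x) = A x y0 := by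
    intro x
    rw [← hb0, ← ha]
    simp [b]
  have hbx0 : b x0 = y0 := by
    apply hA2.1
    change A x0 (b x0) = A x0 y0
    rw [hb]
  let d0 : P ≃ W := Equiv.ofBijective _ hD1
  have hd0 : ∀ p, d0 p = D p z0 := fun p => rfl
  let d : X ≃ W := a.trans d0
  have hd : ∀ x, d x = D (A x y0) z0 := fun x => rfl
  let c0 : Z ≃ W := Equiv.ofBijective _ hD2
  have hc0 : ∀ z, c0 z = D (A x0 y0) z := fun z => rfl
  let c : X ≃ Z := d.trans c0.symm
  have hc : ∀ x, D (A x0 y0) (c x) = d x := by
    intro x
    rw [← hc0]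
    simp [c]
  have hcx0 : c x0 = z0 := by
    apply hD2.1
    change D (A x0 y0) (c x0) = D (A x0 y0) z0
    rw [hc, hd]
  -- the operation
  let m : X → X → X := fun x y => a.symm (A x (b y))
  have hm : ∀ x y, A (m x y) y0 = A x (b y) := by
    intro x y
    rw [← ha]
    simp [m]
  have he1 : ∀ x, m x x0 = x := by
    intro x
    apply a.injective
    rw [ha, ha, hm, hbx0]
  have he2 : ∀ x, m x0 x = x := by
    intro x
    apply a.injective
    rw [ha, ha, hm, hb]
  -- F in normal form: F (C (b y) z0) x = d (m x y)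
  have hF : ∀ x y, F (C (b y) z0) x = d (m x y) := by
    intro x y
    rw [← h1, hd, hm]
  -- write D (A x y0) (c z) = d (n x z)
  have hDm : ∀ x z, D (A x y0) (c z) = d (m x z) := by
    -- step 1: C (b y) (c z) = C (b (n y z)) z0 where d (n y z) = D (A y y0) (c z)
    have hn : ∀ y z, ∃ t, C (b y) (c z) = C (b t) z0 := by
      intro y z
      obtain ⟨t, ht⟩ := hC1.2 (C (b y) (c z))
      exact ⟨b.symm t, by simp only [Equiv.apply_symm_apply]; exact ht.symm⟩
    choose n hn using hn
    have h3 : ∀ x y z, D (A x (b y)) (c z) = d (m x (n y z)) := by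
      intro x y z
      rw [h1, hn, hF]
    -- x = x0
    have h4 : ∀ y z, D (A y y0) (c z) = d (n y z) := by
      intro y z
      have h5 := h3 x0 y z
      rw [hb, he2] at h5
      exact h5
    intro x z
    have h6 := h3 x x0 z
    rw [hbx0] at h6
    rw [h6]
    congr 2
    -- n x0 z = z
    have h7 := h4 x0 z
    rw [hc] at h7
    exact (d.injective h7).symm
  have hCm : ∀ y z, C (b y) (c z) = C (b (m y z)) z0 := by
    intro y z
    obtain ⟨t, ht⟩ := hC1.2 (C (b y) (c z))
    have ht' : C (b y) (c z) = C (b (b.symm t)) z0 := by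
      simp only [Equiv.apply_symm_apply]; exact ht.symm
    have h5 : D (A x0 (b y)) (c z) = d (m x0 (b.symm t)) := by
      rw [h1, ht', hF]
    rw [hb, hDm, he2] at h5
    rw [ht', d.injective h5]
  have hassoc : ∀ x y z, m (m x y) z = m x (m y z) := by
    intro x y z
    apply d.injective
    rw [← hDm, hm, h1, hCm, hF]
  -- B
  have hBm : ∀ x z, B x (c z) = B (m x z) z0 ∧ ∀ y, m (m x y) z = m (m x z) y := by
    intro x z
    obtain ⟨t, ht⟩ := hB1.2 (B x (c z))
    have ht' : B x (c z) = B t z0 := ht.symm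
    have h5 : ∀ y, m (m x y) z = m t y := by
      intro y
      apply d.injective
      rw [← hDm, hm, h2, ht', ← h2, hd, hm]
    have h6 := h5 x0
    rw [he1, he1] at h6
    refine ⟨by rw [ht', h6], fun y => by rw [h5, h6]⟩
  have hcomm : ∀ y z, m y z = m z y := by
    intro y z
    have h5 := (hBm x0 z).2 y
    rw [he2, he2] at h5
    exact h5
  have hinj : ∀ y, Function.Injective (fun x => m x y) := by
    intro y x x' hxx
    have h5 : m x y = m x' y := hxx
    apply hAi (b y)
    change A x (b y) = A x' (b y)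
    rw [← hm, ← hm, h5]
  obtain ⟨s, hs, hss⟩ := involution m x0 he1 he2 hassoc hinj heven
  refine ⟨s, b s, c s, hs, ?_, ?_, ?_⟩
  · rw [← hm, hss]
  · rw [(hBm s s).1, hss]
  · rw [hCm, hss, hbx0]

end Pool.Agent.V11181.NF
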