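import Mathlib
import Pool.Agent.V11181.NF.Entropy
import Pool.Agent.V11181.NF.Quasi

open Finset

namespace Pool.Agent.V11181.NF

section values

variable (R : RandomVector 7)

/-- points of positive probability -/
abbrev Supp : Type := {ω : R.Ω // 0 < R.p ω}

/-- the values of `X_i` with positive probability -/
abbrev Val (i : Fin 7) : Type := {a : ℕ // ∃ ω, 0 < R.p ω ∧ R.X i ω = a}

/-- the value at a point -/
def val (i : Fin 7) (ω : Supp R) : Val R i := ⟨R.X i ω.1, ω.1, ω.2, rfl⟩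

theorem val_surj (i : Fin 7) (a : Val R i) : ∃ ω : Supp R, val R i ω = a := by
  obtain ⟨a, ω, h1, h2⟩ := a
  exact ⟨⟨ω, h1⟩, Subtype.ext h2⟩

/-- the combinatorial content of a three-point line -/
structure Line (i j k : Fin 7) : Prop where
  ind_ij : ∀ (a : Val R i) (b : Val R j), ∃ ω, val R i ω = a ∧ val R j ω = b
  ind_jk : ∀ (a : Val R j) (b : Val R k), ∃ ω, val R j ω = a ∧ val R k ω = b
  ind_ik : ∀ (a : Val R i) (b : Val R k), ∃ ω, val R i ω = a ∧ val R k ω = b
  fun_k : ∀ ω ω', val R i ω = val R i ω' → val R j ω = val R j ω' → val R k ω = val R k ω'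
  fun_i : ∀ ω ω', val R j ω = val R j ω' → val R k ω = val R k ω' → val R i ω = val R i ω'
  fun_j : ∀ ω ω', val R i ω = val R i ω' → val R k ω = val R k ω' → val R j ω = val R j ω'

theorem Line.exists_fun {i j k : Fin 7} (h : Line R i j k) :
    ∃ f : Val R i → Val R j → Val R k, (∀ ω, f (val R i ω) (val R j ω) = val R k ω) ∧
      (∀ y, Function.Bijective (fun x => f x y)) ∧ (∀ x, Function.Bijective (fun y => f x y)) := by
  choose g hg using h.ind_ij
  refine ⟨fun a b => val R k (g a b), ?_, ?_, ?_⟩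
  · intro ω
    have h1 := hg (val R i ω) (val R j ω)
    exact h.fun_k _ _ h1.1 h1.2
  · intro y
    constructor
    · intro x x' hxx
      have h1 := h.fun_i _ _ ((hg x y).2.trans (hg x' y).2.symm) hxx
      rw [(hg x y).1, (hg x' y).1] at h1
      exact h1
    · intro c
      obtain ⟨ω, h1, h2⟩ := h.ind_jk y c
      refine ⟨val R i ω, ?_⟩
      have h3 := hg (val R i ω) y
      rw [← h2]
      exact h.fun_k _ _ h3.1 (h3.2.trans h1.symm)
  · intro x
    constructor
    · intro y y' hyy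
      have h1 := h.fun_j _ _ ((hg x y).1.trans (hg x y').1.symm) hyy
      rw [(hg x y).2, (hg x y').2] at h1
      exact h1
    · intro c
      obtain ⟨ω, h1, h2⟩ := h.ind_ik x c
      refine ⟨val R j ω, ?_⟩
      have h3 := hg x (val R j ω)
      rw [← h2]
      exact h.fun_k _ _ (h3.1.trans h1.symm) h3.2

variable (r : Finset (Fin 7) → ℕ) (v : ℕ)
  (h : ∀ A, entropy R A = Real.log v * r A)

include h

theorem ind_sets {A B : Finset (Fin 7)} (hr : r (A ∪ B) = r A + r B) (ω₁ ω₂ : Supp R) :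
    ∃ ω : Supp R, (∀ i ∈ A, val R i ω = val R i ω₁) ∧ (∀ i ∈ B, val R i ω = val R i ω₂) := by
  have h1 : entropy R (A ∪ B) = entropy R A + entropy R B := by
    rw [h, h, h, hr]
    push_cast
    ring
  obtain ⟨ω, h2, h3, h4⟩ := (independent R h1).2 ω₁.1 ω₂.1 ω₁.2 ω₂.2
  exact ⟨⟨ω, h2⟩, fun i hi => Subtype.ext (h3 i hi), fun i hi => Subtype.ext (h4 i hi)⟩

theorem fun_sets {A B : Finset (Fin 7)} (hAB : A ⊆ B) (hr : r B = r A) (ω ω' : Supp R)
    (hag : ∀ i ∈ A, val R i ω = val R i ω') : ∀ i ∈ B, val R i ω = val R i ω' := by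
  have h1 : entropy R B = entropy R A := by
    rw [h, h, hr]
  intro i hi
  exact Subtype.ext ((functional R hAB h1).2 ω.1 ω'.1 ω.2 ω'.2
    (fun i hi => congrArg Subtype.val (hag i hi)) i hi)

theorem ind_pair {i j : Fin 7} (h1 : ∀ i, r {i} = 1) (h2 : r {i, j} = 2)
    (a : Val R i) (b : Val R j) : ∃ ω, val R i ω = a ∧ val R j ω = b := by
  obtain ⟨ω₁, rfl⟩ := val_surj R i a
  obtain ⟨ω₂, rfl⟩ := val_surj R j b
  obtain ⟨ω, h3, h4⟩ := ind_sets R r v h (A := {i}) (B := {j})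
    (by
      have : ({i} : Finset (Fin 7)) ∪ {j} = {i, j} := rfl
      rw [this, h2, h1, h1]) ω₁ ω₂
  exact ⟨ω, h3 i (mem_singleton_self _), h4 j (mem_singleton_self _)⟩

theorem line_of (i j k : Fin 7) (h1 : ∀ i, r {i} = 1) (hij : r {i, j} = 2)
    (hjk : r {j, k} = 2) (hik : r {i, k} = 2) (hl : r {i, j, k} = 2) : Line R i j k where
  ind_ij := ind_pair R r v h h1 hij
  ind_jk := ind_pair R r v h h1 hjk
  ind_ik := ind_pair R r v h h1 hik
  fun_k := fun ω ω' ha hb => fun_sets R r v h (A := {i, j}) (B := {i, j, k})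
    (by intro x hx; simp only [mem_insert, mem_singleton] at hx ⊢; tauto) (by rw [hl, hij]) ω ω'
    (by
      intro x hx
      simp only [mem_insert, mem_singleton] at hx
      rcases hx with rfl | rfl
      · exact ha
      · exact hb) k (by simp)
  fun_i := fun ω ω' ha hb => fun_sets R r v h (A := {j, k}) (B := {i, j, k})
    (by intro x hx; simp only [mem_insert, mem_singleton] at hx ⊢; tauto) (by rw [hl, hjk]) ω ω'
    (by
      intro x hx
      simp only [mem_insert, mem_singleton] at hx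
      rcases hx with rfl | rfl
      · exact ha
      · exact hb) i (by simp)
  fun_j := fun ω ω' ha hb => fun_sets R r v h (A := {i, k}) (B := {i, j, k})
    (by intro x hx; simp only [mem_insert, mem_singleton] at hx ⊢; tauto) (by rw [hl, hik]) ω ω'
    (by
      intro x hx
      simp only [mem_insert, mem_singleton] at hx
      rcases hx with rfl | rfl
      · exact ha
      · exact hb) j (by simp)

/-- the values on a line are uniform -/
theorem uniform_line (hv : 2 ≤ v) (i j k : Fin 7) (h1 : ∀ i, r {i} = 1) (hij : r {i, j} = 2)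
    (hjk : r {j, k} = 2) (hik : r {i, k} = 2) (hl : r {i, j, k} = 2) :
    ∀ ω, 0 < R.p ω → prob R {i} ω = 1 / v := by
  have e3 : ∀ {a b : Fin 7}, r {a, b} = 2 → ∀ ω, 0 < R.p ω →
      prob R {a, b} ω = prob R {a} ω * prob R {b} ω := by
    intro a b hab ω hω
    have hE : entropy R ({a} ∪ {b}) = entropy R {a} + entropy R {b} := by
      have : ({a} : Finset (Fin 7)) ∪ {b} = {a, b} := rfl
      rw [this, h, h, h, hab, h1, h1]
      push_cast
      ring
    exact (independent R hE).1 ω hω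
  have e4 : ∀ {a b : Fin 7}, ({a, b} : Finset (Fin 7)) ⊆ {i, j, k} → r {a, b} = 2 →
      ∀ ω, 0 < R.p ω → prob R {i, j, k} ω = prob R {a, b} ω := by
    intro a b hs hab ω hω
    have hE : entropy R {i, j, k} = entropy R {a, b} := by rw [h, h, hl, hab]
    exact (functional R hs hE).1 ω hω
  have hs1 : ({i, j} : Finset (Fin 7)) ⊆ {i, j, k} := by
    intro x hx; simp only [mem_insert, mem_singleton] at hx ⊢; tauto
  have hs2 : ({j, k} : Finset (Fin 7)) ⊆ {i, j, k} := by
    intro x hx; simp only [mem_insert, mem_singleton] at hx ⊢; tauto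
  have hs3 : ({i, k} : Finset (Fin 7)) ⊆ {i, j, k} := by
    intro x hx; simp only [mem_insert, mem_singleton] at hx ⊢; tauto
  have hEq : ∀ ω, 0 < R.p ω → prob R {i} ω = prob R {j} ω := by
    intro ω hω
    have g2 := (e4 hs2 hjk ω hω).symm.trans (e4 hs3 hik ω hω)
    rw [e3 hjk ω hω, e3 hik ω hω] at g2
    exact (mul_right_cancel₀ (prob_pos R hω).ne' g2).symm
  have hconst : ∀ ω ω', 0 < R.p ω → 0 < R.p ω' → prob R {i} ω = prob R {i} ω' := by
    intro ω ω' hω hω'
    obtain ⟨ω2, g1, g2⟩ := ind_sets R r v h (A := {i}) (B := {j})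
      (by
        have : ({i} : Finset (Fin 7)) ∪ {j} = {i, j} := rfl
        rw [this, hij, h1, h1]) ⟨ω, hω⟩ ⟨ω', hω'⟩
    have g3 : prob R {i} ω2.1 = prob R {i} ω := prob_congr R (fun a ha =>
      congrArg Subtype.val (g1 a ha))
    have g4 : prob R {j} ω2.1 = prob R {j} ω' := prob_congr R (fun a ha =>
      congrArg Subtype.val (g2 a ha))
    rw [← g3, hEq ω2.1 ω2.2, g4, hEq ω' hω']
  intro ω hω
  have hH := h {i}
  have hH2 : entropy R {i} = -Real.log (prob R {i} ω) := by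
    unfold entropy
    have g1 : ∀ ω', R.p ω' * -Real.log (prob R {i} ω') = R.p ω' * -Real.log (prob R {i} ω) := by
      intro ω'
      rcases (R.nonneg ω').eq_or_lt with h0 | h0
      · rw [← h0, zero_mul, zero_mul]
      · rw [hconst ω' ω h0 hω]
    rw [Finset.sum_congr rfl (fun ω' _ => g1 ω'), ← Finset.sum_mul, R.sum_one, one_mul]
  have hvpos : (0 : ℝ) < v := by exact_mod_cast (by omega : 0 < v)
  rw [hH2, h1] at hH
  have h5 : Real.log (prob R {i} ω) = Real.log (1 / (v : ℝ)) := by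
    rw [one_div, Real.log_inv]
    push_cast at hH
    linarith
  exact Real.log_injOn_pos (prob_pos R hω) (by simpa using hvpos) h5

omit h in
theorem card_of_uniform (hv : 2 ≤ v) (i : Fin 7)
    (hu : ∀ ω, 0 < R.p ω → prob R {i} ω = 1 / v) :
    ∃ _ : Fintype (Val R i), Fintype.card (Val R i) = v := by
  classical
  let T : Finset ℕ := (univ.filter (fun ω => 0 < R.p ω)).image (R.X i)
  have hT : ∀ a, a ∈ T ↔ ∃ ω, 0 < R.p ω ∧ R.X i ω = a := by
    intro a
    simp only [T, mem_image, mem_filter, mem_univ, true_and]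
  refine ⟨Fintype.subtype T hT, ?_⟩
  rw [Fintype.subtype_card]
  have h1 : ∑ ω ∈ univ.filter (fun ω => 0 < R.p ω), R.p ω = 1 := by
    rw [← R.sum_one]
    apply Finset.sum_subset (filter_subset _ _)
    intro ω _ hω
    by_contra h2
    apply hω
    rw [mem_filter]
    exact ⟨mem_univ _, lt_of_le_of_ne (R.nonneg ω) (Ne.symm h2)⟩
  rw [← Finset.sum_fiberwise_of_maps_to (t := T) (g := R.X i)
    (fun ω hω => mem_image_of_mem _ hω)] at h1
  have h2 : ∀ a ∈ T, ∑ ω ∈ (univ.filter (fun ω => 0 < R.p ω)).filter (fun ω => R.X i ω = a),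
      R.p ω = 1 / v := by
    intro a ha
    obtain ⟨ω₀, h3, h4⟩ := (hT a).mp ha
    rw [← hu ω₀ h3]
    unfold prob
    apply Finset.sum_subset
    · intro ω hω
      rw [mem_filter] at hω
      rw [mem_filter]
      refine ⟨mem_univ _, fun b hb => ?_⟩
      rw [mem_singleton] at hb
      rw [hb, hω.2, h4]
    · intro ω hω hω'
      rw [mem_filter] at hω
      by_contra h5
      apply hω'
      rw [mem_filter, mem_filter]
      refine ⟨⟨mem_univ _, lt_of_le_of_ne (R.nonneg ω) (Ne.symm h5)⟩, ?_⟩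
      rw [hω.2 i (mem_singleton_self _), h4]
  rw [Finset.sum_congr rfl h2, Finset.sum_const, nsmul_eq_mul] at h1
  have hvpos : (0 : ℝ) < v := by exact_mod_cast (by omega : 0 < v)
  rw [mul_one_div, div_eq_one_iff_eq hvpos.ne'] at h1
  exact_mod_cast h1

/-- no random vector of even order for the non-Fano rank function -/
theorem no_even (hv : 2 ≤ v) (heven : 2 ∣ v)
    (h1 : ∀ i, r {i} = 1) (h2 : ∀ i j, i ≠ j → r {i, j} = 2)
    (l013 : r {0, 1, 3} = 2) (l024 : r {0, 2, 4} = 2) (l125 : r {1, 2, 5} = 2)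
    (l326 : r {3, 2, 6} = 2) (l416 : r {4, 1, 6} = 2) (l506 : r {5, 0, 6} = 2)
    (h012 : r ({0, 1} ∪ {2}) = 3) (h345 : r {3, 4, 5} = 3) (hun : r univ = 3) : False := by
  have L013 : Line R 0 1 3 := line_of R r v h 0 1 3 h1 (h2 _ _ (by decide))
    (h2 _ _ (by decide)) (h2 _ _ (by decide)) l013
  have L024 : Line R 0 2 4 := line_of R r v h 0 2 4 h1 (h2 _ _ (by decide))
    (h2 _ _ (by decide)) (h2 _ _ (by decide)) l024
  have L125 : Line R 1 2 5 := line_of R r v h 1 2 5 h1 (h2 _ _ (by decide))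
    (h2 _ _ (by decide)) (h2 _ _ (by decide)) l125
  have L326 : Line R 3 2 6 := line_of R r v h 3 2 6 h1 (h2 _ _ (by decide))
    (h2 _ _ (by decide)) (h2 _ _ (by decide)) l326
  have L416 : Line R 4 1 6 := line_of R r v h 4 1 6 h1 (h2 _ _ (by decide))
    (h2 _ _ (by decide)) (h2 _ _ (by decide)) l416
  have L506 : Line R 5 0 6 := line_of R r v h 5 0 6 h1 (h2 _ _ (by decide))
    (h2 _ _ (by decide)) (h2 _ _ (by decide)) l506
  obtain ⟨A, hA, hAb, hAb'⟩ := L013.exists_fun R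
  obtain ⟨B, hB, hBb, _⟩ := L024.exists_fun R
  obtain ⟨C, hC, hCb, _⟩ := L125.exists_fun R
  obtain ⟨D, hD, hDb, hDb'⟩ := L326.exists_fun R
  obtain ⟨E, hE, _, _⟩ := L416.exists_fun R
  obtain ⟨F, hF, _, _⟩ := L506.exists_fun R
  have htrip : ∀ (x : Val R 0) (y : Val R 1) (z : Val R 2),
      ∃ ω, val R 0 ω = x ∧ val R 1 ω = y ∧ val R 2 ω = z := by
    intro x y z
    obtain ⟨ω₁, g1, g2⟩ := L013.ind_ij x y
    obtain ⟨ω₂, g3⟩ := val_surj R 2 z
    obtain ⟨ω, g4, g5⟩ := ind_sets R r v h (A := {0, 1}) (B := {2})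
      (by rw [h012, h2 0 1 (by decide), h1]) ω₁ ω₂
    exact ⟨ω, by rw [g4 0 (by simp), g1], by rw [g4 1 (by simp), g2], by
      rw [g5 2 (by simp), g3]⟩
  have k1 : ∀ x y z, D (A x y) z = F (C y z) x := by
    intro x y z
    obtain ⟨ω, rfl, rfl, rfl⟩ := htrip x y z
    rw [hA, hC, hD, hF]
  have k2 : ∀ x y z, D (A x y) z = E (B x z) y := by
    intro x y z
    obtain ⟨ω, rfl, rfl, rfl⟩ := htrip x y z
    rw [hA, hB, hD, hE]
  -- a base point
  have hne : ∃ ω, 0 < R.p ω := by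
    by_contra hno
    push Not at hno
    have g1 : ∑ ω, R.p ω ≤ 0 := Finset.sum_nonpos (fun ω _ => hno ω)
    rw [R.sum_one] at g1
    linarith
  obtain ⟨ω₀, hω₀⟩ := hne
  have hu := uniform_line R r v h hv 0 1 3 h1 (h2 _ _ (by decide))
    (h2 _ _ (by decide)) (h2 _ _ (by decide)) l013
  obtain ⟨inst, hcard⟩ := card_of_uniform R v hv 0 hu
  obtain ⟨x, y, z, hx, e1, e2, e3⟩ := nonfano A B C D E F
    (val R 0 ⟨ω₀, hω₀⟩) (val R 1 ⟨ω₀, hω₀⟩) (val R 2 ⟨ω₀, hω₀⟩) k1 k2
    (hAb _) (hAb' _) (hDb _) (hDb' _) (hCb _) (hBb _) (fun y => (hAb y).1)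
    (by rw [hcard]; exact heven)
  obtain ⟨ω, g1, g2, g3⟩ := htrip x y z
  have f1 : val R 3 ω = val R 3 ⟨ω₀, hω₀⟩ := by
    rw [← hA, ← hA, g1, g2, e1]
  have f2 : val R 4 ω = val R 4 ⟨ω₀, hω₀⟩ := by
    rw [← hB, ← hB, g1, g3, e2]
  have f3 : val R 5 ω = val R 5 ⟨ω₀, hω₀⟩ := by
    rw [← hC, ← hC, g2, g3, e3]
  have f4 := fun_sets R r v h (A := {3, 4, 5}) (B := univ) (subset_univ _)
    (by rw [hun, h345]) ω ⟨ω₀, hω₀⟩ (by
      intro i hi
      simp only [mem_insert, mem_singleton] at hi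
      rcases hi with rfl | rfl | rfl
      · exact f1
      · exact f2
      · exact f3) 0 (mem_univ _)
  apply hx
  rw [← g1, f4]

end values

end Pool.Agent.V11181.NF
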